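import Mathlib
import Pool.Agent.N534.XH.Hyp

/-!
# The normal law of the averages of Sato–Tate for random hyperelliptic curves

Let `J_c` be the Jacobian of the curve `y² = x^(2g+1) + c_{2g} x^(2g) + … + c_0` with integer coefficients, and let `t_p(c) = -a_1(J_c)(p)` be
the normalised trace of the Frobenius at `p`. For almost all `c` the Sato–Tate group of `J_c` is `USp(2g)`, and for `m ≤ 2g` the `m`-th moment of
the trace on `USp(2g)` is that of the standard normal law. So Q1 predicts that for a polynomial `φ` of degree at most `2g` the average of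
`φ(t_p(c))` over the primes is the expectation `E φ(X)`, `X` a standard normal variable.

The theorem: let `φ` be a polynomial of degree between `1` and `g`. For random `c` in the box `|c_i| ≤ H` the weighted sum of
`φ(t_p(c)) - E φ(X)` over the primes in a finite set `P` of primes is asymptotically normally distributed with mean value `0` and variance
`Var φ(X) · ∑ w_p²`, for `H` larger than a power of the primes. The primes of bad reduction are left out: for each `p` a set of exceptional
residues modulo `p` is given, whose proportion is at most `D / p` (the proportion of the residues for which the polynomial is not squarefree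
modulo `p` is `1 / p`).
-/

set_option autoImplicit false

open MeasureTheory ProbabilityTheory Polynomial

namespace Pool.Agent.Results.MP_753a9c_nt.NormalLaw

/-- The number of the solutions modulo `p` of the equation `y² = x^(2g+1) + c_{2g} x^(2g) + … + c_0`. -/
noncomputable def affinePoints {g : ℕ} (c : Fin (2 * g + 1) → ℤ) (p : ℕ) : ℕ :=
  Nat.card {q : ZMod p × ZMod p // q.2 ^ 2 = q.1 ^ (2 * g + 1) + ∑ i, (c i : ZMod p) * q.1 ^ (i : ℕ)}

/-- The normalised trace of the Frobenius at `p`, that is `-a_1(J_c)(p)`. -/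
noncomputable def trace {g : ℕ} (c : Fin (2 * g + 1) → ℤ) (p : ℕ) : ℝ := ((p : ℝ) - affinePoints c p) / √p

/-- The residue vector of `c` modulo `p`. -/
def residue {ι : Type} (c : ι → ℤ) (p : ℕ) : ι → ZMod p := fun i => (c i : ZMod p)

/-- The expectation of `φ(X)` for a standard normal variable `X`. -/
noncomputable def mean (φ : ℝ[X]) : ℝ := ∫ x, φ.eval x ∂(gaussianReal 0 1)

/-- The variance of `φ(X)` for a standard normal variable `X`. -/
noncomputable def variance (φ : ℝ[X]) : ℝ := mean (φ ^ 2) - mean φ ^ 2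

open Classical in
/-- The sum of `w_p (φ(t_p(c)) - E φ(X))` over the primes `p` in `P` such that the residue vector of `c` modulo `p` is not exceptional. -/
noncomputable def satoTateSum {g : ℕ} (φ : ℝ[X]) (E : ∀ p : ℕ, Set (Fin (2 * g + 1) → ZMod p)) (w : ℕ → ℝ) (P : Finset ℕ)
    (c : Fin (2 * g + 1) → ℤ) : ℝ :=
  ∑ p ∈ P.filter (fun p => residue c p ∉ E p), w p * (φ.eval (trace c p) - mean φ)

/-- The proportion of the vectors `c` in the box `|c_i| ≤ H` with the property `Q`. -/
noncomputable def proportion {n : ℕ} (H : ℕ) (Q : (Fin n → ℤ) → Prop) : ℝ :=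
  ({c : Fin n → ℤ | (∀ i, |c i| ≤ H) ∧ Q c}.ncard : ℝ) / (2 * H + 1 : ℝ) ^ n

open Pool.Agent.Y722.HS Pool.Agent.X280.BP Pool.Agent.X280.HG Pool.Agent.N534.XH in
/-- **The normal law of the averages of Sato–Tate.** -/
theorem result (g : ℕ) (φ : ℝ[X]) (h1 : 1 ≤ φ.natDegree) (hg : φ.natDegree ≤ g) (E : ∀ p : ℕ, Set (Fin (2 * g + 1) → ZMod p)) (D : ℝ)
    (hE : ∀ p : ℕ, p.Prime → ((E p).ncard : ℝ) ≤ D * (p : ℝ) ^ (2 * g)) (δ : ℝ) (hδ : 0 < δ) (u ε : ℝ) (hε : 0 < ε) :
    ∃ K : ℕ, ∀ (P : Finset ℕ) (w : ℕ → ℝ) (y H : ℕ), (∀ p ∈ P, p.Prime ∧ p ≤ y) →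
      (∀ p ∈ P, |w p| ≤ 1) → δ * P.card ≤ ∑ p ∈ P, w p ^ 2 → K ≤ P.card → y ^ K ≤ H →
      |proportion H (fun c : Fin (2 * g + 1) → ℤ => satoTateSum φ E w P c ≤ u * √(variance φ * ∑ p ∈ P, w p ^ 2)) -
        (gaussianReal 0 1).real (Set.Iic u)| ≤ ε := by
  classical
  obtain ⟨C, hC⟩ := ld_tr g φ hg
  have hv : 0 < GM (φ ^ 2) - GM φ ^ 2 := GM_var φ h1
  have hG : ∀ p : ℕ, p.Prime → ∀ [NeZero p],
      EM p (ib (fun p (x : Fin (2 * g + 1) → ZMod p) => x ∉ E p) p) ≤ D / p := by
    intro p hp _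
    have hp0 : (0 : ℝ) < p := by exact_mod_cast hp.pos
    refine EM_ib_set E D p ?_
    rw [Fintype.card_fin, pow_succ, ← mul_assoc]
    exact mul_le_mul_of_nonneg_right (hE p hp) hp0.le
  obtain ⟨K, hK⟩ := good_law hC hv (fun p (x : Fin (2 * g + 1) → ZMod p) => x ∉ E p) hG (GM φ) hδ u hε
  refine ⟨K, fun P w y H hP hw hvar hcard hH => ?_⟩
  have h2 := hK P w y H hP hw hvar hcard hH
  rw [Fintype.card_fin] at h2
  unfold proportion
  refine le_trans (le_of_eq ?_) h2
  congr 3
  congr 2
  ext c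
  simp only [Set.mem_ofPred_eq]
  refine and_congr_right fun _ => ?_
  have hvar' : variance φ = GM (φ ^ 2) - GM φ ^ 2 := rfl
  have hmean : mean φ = GM φ := rfl
  rw [hvar', ← sub_le_iff_le_add']
  refine Iff.of_eq (congrArg (fun z => z ≤ u * √((GM (φ ^ 2) - GM φ ^ 2) * ∑ p ∈ P, w p ^ 2)) ?_)
  unfold satoTateSum
  rw [Finset.sum_filter, Finset.mul_sum, ← Finset.sum_sub_distrib]
  refine Finset.sum_congr rfl fun p _ => ?_
  have e2 : residue c p = red p c := rfl
  have e3 : trace c p = Pool.Agent.X280.UC.tr p (red p c) := rfl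
  rw [e2, e3, hmean]
  split_ifs <;> ring

end Pool.Agent.Results.MP_753a9c_nt.NormalLaw
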