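import Mathlib
import Pool.Agent.N666.TM.St
import Pool.Agent.N534.HC.Inst

/-!
# Thin sequences of Jacobians: the L-functions of all representations of odd weight of `GSp(2g)`

Serre's approach to the Sato-Tate conjecture for an abelian variety `A` with the Sato-Tate group `ST` reduces it to the behaviour of the L-functions
`L(s, A, ρ)` of the irreducible representations `ρ ≠ 1` at the edge `Re s = 1 + w/2` of absolute convergence (`w` the weight of `ρ`): no
zeros and no poles there. Here `A = A_c = Jac(C_c)`, `C_c : y² = F(c; x)`, is the Jacobian of a hyperelliptic (or elliptic) curve of any genus `g`,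
over any number field `K`, and `ρ` is any representation of `GSp(2g)` of odd weight; for generic members `ST = USp(2g)`, and these are the
representations of `USp(2g)` with `ρ(-1) = -1`.

The character of a representation `ρ` of weight `w` (the scalars `z` act by `z^w`) is, after a twist by a power of the similitude factor, which is a
shift of `s`, given by a polynomial `Φ`: `tr ρ(A_v^k) = Φ(N v^k, tr A_v^k, tr A_v^{2k}, …)`, homogeneous of weight `w` if `N v` has weight `2` and
`tr A_v^l` weight `l`. Examples: all symmetric and exterior powers, all Schur functors.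

The family: `F(c; x)` is a polynomial in `x` whose coefficients are polynomials over `𝓞 K` in finitely many integer parameters `c_j`; a scaling
`c_j → G^{wt_j} c_j` twists the curve: `F(G c; G^a x) = G^e F(c; x)` with `e` odd; and some member is nonsingular and of full degree.
Examples: all polynomials of degree `d`, all linear systems of polynomials, all curves `y² = x³ + A x + B`, all
`y² = x^d + c_{2} x^{d-2} + ⋯ + c_d`, `d` odd, the quadratic twists of a given curve, with parameters in `ℤ` or in `𝓞 K` (written in an integral basis).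

The parameters are thin: `c(n)_j = ⌊P_j(n)⌋`, where the `P_j` are generalised polynomials (finite sums of real powers with real
coefficients) whose leading exponents are positive, not integers and different from each other, with positive leading coefficients; `n` runs
through the integers, or through the primes, of `(N, 2N]`. Example: `y² = x⁵ + ⌊n^√2⌋ x³ + ⌊n^√3⌋ x² + ⌊n^(5/2)⌋ x + ⌊n^π⌋`; the twists of one curve by
`⌊n^π⌋`. Only `N` of the members of the box of this size occur.

Theorem, for all `Φ` of odd weight, for the integers and for the primes of `(N, 2N]`: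
(1) the mean over `n` of the square of the supremum of `|log L(s, A_{c(n)}, ρ)|` over the rectangle `1 + w/2 + 1/log N ≤ Re s ≤ 2 + w/2`, `|Im s| ≤ T` is
at most `C (1 + T)`, `C` free of `N ≥ N₀` and `T`; so `|log L| ≤ (C (1 + T) / δ)^(1/2)` in the rectangle for all `n` outside a proportion `δ`: neither a
zero nor a pole is visible at the distance `1 / log N` from the edge;
(2) for points `s_k` with `Re s_k ≥ 1 + w/2` (on the edge allowed) and `σ_k(N) → s_k` with `(Re σ_k(N) - 1 - w/2) log N → ∞` the joint distribution of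
the `L(σ_k(N), A_{c(n)}, ρ)` converges to that of the values at `s_k` of the random Euler product over `K` (independent uniform residue
classes modulo the primes), which has neither zeros nor poles at `s_k` almost surely.

The local analysis (Weil bounds for the `Φ`, twists, bad places) is that of helper534 (`N534/HC`, `MP_eea520_nt.OddRepresentationsEdge` for
full boxes, without the limit law). The case `w = 1` of elliptic curves over `ℚ` is `MP_bf9450_nt.ThinRationalCurves`.
-/

set_option autoImplicit false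

open NumberField IsDedekindDomain Polynomial MeasureTheory Filter Topology

namespace Pool.Agent.Results.MP_753a9c_nt.ThinRepresentations

section
variable {K : Type} [Field K] [NumberField K]

/-- Number of affine points of `y² = g(x)` with coordinates in the extension of degree `m` of the finite field `k`, i.e. the field of the
elements of the algebraic closure of `k` which are fixed by the `m`-th power of the Frobenius of `k`. -/
noncomputable def affineCount (k : Type) [Field k] (g : k[X]) (m : ℕ) : ℕ :=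
  Nat.card {P : AlgebraicClosure k × AlgebraicClosure k //
    P.1 ^ (Nat.card k ^ m) = P.1 ∧ P.2 ^ (Nat.card k ^ m) = P.2 ∧ P.2 ^ 2 = aeval P.1 g}

/-- Number of points at infinity of the smooth projective curve `y² = g(x)` over the extension of degree `m` of `k`: one if the degree of `g`
is odd, and otherwise the number of square roots of the leading coefficient. -/
noncomputable def infinityCount (k : Type) [Field k] (g : k[X]) (m : ℕ) : ℕ :=
  if Odd g.natDegree then 1 else
    Nat.card {y : AlgebraicClosure k // y ^ (Nat.card k ^ m) = y ∧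
      y ^ 2 = algebraMap k (AlgebraicClosure k) g.leadingCoeff}

/-- Trace of the `m`-th power of the Frobenius at `v` on `H¹` of the curve `y² = f(x)`: `q^m + 1` minus the number of its points over the
field with `q^m` elements, `q = N v`. -/
noncomputable def trace (f : (𝓞 K)[X]) (v : HeightOneSpectrum (𝓞 K)) (m : ℕ) : ℤ :=
  haveI : v.asIdeal.IsMaximal := v.isMaximal
  letI : Field (𝓞 K ⧸ v.asIdeal) := Ideal.Quotient.field v.asIdeal
  ((Ideal.absNorm v.asIdeal : ℕ) : ℤ) ^ m + 1 -
    (affineCount (𝓞 K ⧸ v.asIdeal) (f.map (Ideal.Quotient.mk v.asIdeal)) m +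
      infinityCount (𝓞 K ⧸ v.asIdeal) (f.map (Ideal.Quotient.mk v.asIdeal)) m)

/-- Good reduction: `v` does not divide `2` and the reduction of `f` is separable, of degree `d`. -/
def Good (f : (𝓞 K)[X]) (d : ℕ) (v : HeightOneSpectrum (𝓞 K)) : Prop :=
  (2 : 𝓞 K) ∉ v.asIdeal ∧ (f.map (Ideal.Quotient.mk v.asIdeal)).natDegree = d ∧
    (f.map (Ideal.Quotient.mk v.asIdeal)).Separable

/-- The weights of the variables: `none` is the similitude factor, `some l` is the trace of the power with the exponent `l + 1`. -/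
def weight : Option ℕ → ℕ
  | none => 2
  | some l => l + 1

/-- `tr ρ(A_v^k) = Φ(N v^k, tr A_v^k, tr A_v^{2k}, …)`. -/
noncomputable def localTrace (Φ : MvPolynomial (Option ℕ) ℝ) (f : (𝓞 K)[X]) (v : HeightOneSpectrum (𝓞 K)) (k : ℕ) : ℝ :=
  MvPolynomial.eval (fun x : Option ℕ => match x with
    | none => ((Ideal.absNorm v.asIdeal : ℕ) : ℝ) ^ k
    | some l => ((trace f v (k * (l + 1)) : ℤ) : ℝ)) Φ

open Classical in
/-- The sum over the places `v` above `p`, of residue degree `f_v` dividing `k`, of `f_v` times the local trace of the power `k / f_v`. -/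
noncomputable def frobTrace (t : HeightOneSpectrum (𝓞 K) → ℕ → ℝ) (p k : ℕ) : ℝ :=
  ∑ᶠ v : {v : HeightOneSpectrum (𝓞 K) // (p : 𝓞 K) ∈ v.asIdeal},
    if Nat.log p (Ideal.absNorm v.1.asIdeal) ∣ k then
      (Nat.log p (Ideal.absNorm v.1.asIdeal) : ℝ) * t v.1 (k / Nat.log p (Ideal.absNorm v.1.asIdeal))
    else 0

open Classical in
/-- The logarithm `∑ (frobTrace t p k) p^{-ks} / k` of the product of the Euler factors at the places above `p`, for local traces `t`; it is
omitted if one of these places is not good. -/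
noncomputable def logFactor (t : HeightOneSpectrum (𝓞 K) → ℕ → ℝ) (G : HeightOneSpectrum (𝓞 K) → Prop)
    (s : ℂ) (p : ℕ) : ℂ :=
  if ∃ v : HeightOneSpectrum (𝓞 K), (p : 𝓞 K) ∈ v.asIdeal ∧ ¬ G v then 0 else
    ∑' k : ℕ, (frobTrace t p (k + 1) : ℂ) / ((k : ℂ) + 1) * (p : ℂ) ^ (-(((k : ℂ) + 1) * s))

/-- The logarithm of the L-function. -/
noncomputable def logL (t : HeightOneSpectrum (𝓞 K) → ℕ → ℝ) (G : HeightOneSpectrum (𝓞 K) → Prop) (s : ℂ) : ℂ :=
  ∑' p : Nat.Primes, logFactor t G s (p : ℕ)

/-- The L-function: the product of the Euler factors. -/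
noncomputable def LSeries (t : HeightOneSpectrum (𝓞 K) → ℕ → ℝ) (G : HeightOneSpectrum (𝓞 K) → Prop) (s : ℂ) : ℂ :=
  ∏' p : Nat.Primes, Complex.exp (logFactor t G s (p : ℕ))

variable {J : Type} [Fintype J] [DecidableEq J]

/-- The member `F(c; x)` of the family. -/
noncomputable def member (F : (MvPolynomial J (𝓞 K))[X]) (c : J → ℤ) : (𝓞 K)[X] :=
  F.map (MvPolynomial.eval (fun j => ((c j : ℤ) : 𝓞 K)))

/-- `log L(s, C_c, ρ)`. -/
noncomputable def logLc (Φ : MvPolynomial (Option ℕ) ℝ) (F : (MvPolynomial J (𝓞 K))[X]) (c : J → ℤ) (s : ℂ) : ℂ :=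
  logL (localTrace Φ (member F c)) (Good (member F c) F.natDegree) s

/-- `L(s, C_c, ρ)`. -/
noncomputable def LSeriesc (Φ : MvPolynomial (Option ℕ) ℝ) (F : (MvPolynomial J (𝓞 K))[X]) (c : J → ℤ) (s : ℂ) : ℂ :=
  LSeries (localTrace Φ (member F c)) (Good (member F c) F.natDegree) s

/-- Vectors of residue classes, one for each prime. -/
abbrev Residues (ι : Type) : Type := ∀ p : Nat.Primes, ι → ZMod (p : ℕ)

/-- The residue classes are independent and uniform. -/
noncomputable def uniform (ι : Type) [Fintype ι] [DecidableEq ι] : MeasureTheory.Measure (Residues ι) :=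
  MeasureTheory.Measure.infinitePi fun p => (PMF.uniformOfFintype (ι → ZMod (p : ℕ))).toMeasure

/-- An integer vector in the residue class modulo `p`. -/
def lift {ι : Type} (x : Residues ι) (p : Nat.Primes) : ι → ℤ := fun i => ((x p i).val : ℤ)

/-- The prime numbers up to `z`. -/
def primesUpTo (z : ℕ) : Finset Nat.Primes := (Finset.range (z + 1)).subtype Nat.Prime

/-- The logarithm of the random Euler product over the primes `p ≤ z`: the Euler factor at `p` is that of the member given by the
residue classes modulo `p`. -/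
noncomputable def randomLog {ι : Type} (t : (ι → ℤ) → HeightOneSpectrum (𝓞 K) → ℕ → ℝ)
    (G : (ι → ℤ) → HeightOneSpectrum (𝓞 K) → Prop) (z : ℕ) (s : ℂ) (x : Residues ι) : ℂ :=
  ∑ p ∈ primesUpTo z, logFactor (t (lift x p)) (G (lift x p)) s (p : ℕ)

/-- The rectangle `1 + w/2 + 1/log N ≤ Re s ≤ 2 + w/2`, `|Im s| ≤ T`. -/
def rectangle (w N : ℕ) (T : ℝ) : Set ℂ :=
  {s | 1 + (w : ℝ) / 2 + 1 / Real.log N ≤ s.re ∧ s.re ≤ 2 + (w : ℝ) / 2 ∧ |s.im| ≤ T}

/-- `c` is the largest exponent of the generalised polynomial `∑ a_x t ^ x`; it is positive and not an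
integer and has a positive coefficient. -/
def Admissible (F : Finset ℝ) (a : ℝ → ℝ) (c : ℝ) : Prop :=
  c ∈ F ∧ (∀ x ∈ F, x ≤ c) ∧ 0 < c ∧ (∀ m : ℕ, c ≠ m) ∧ 0 < a c

/-- The integer parts of the values at `n` of the generalised polynomials `∑ a_x t ^ x`, `x ∈ F k`. -/
noncomputable def floors {J : Type} (F : J → Finset ℝ) (a : J → ℝ → ℝ) (n : ℕ) (k : J) : ℤ :=
  ⌊∑ x ∈ F k, a k x * (n : ℝ) ^ x⌋

/-- The functions `L n`, `n ∈ S`, are bounded on the average in the region `R`. -/
def BoundedOn (L : ℕ → ℂ → ℂ) (S : Finset ℕ) (R : Set ℂ) (C : ℝ) : Prop :=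
  (∀ S' ⊆ S, ∀ u : ℕ → ℂ, (∀ n ∈ S', u n ∈ R) → ∑ n ∈ S', ‖L n (u n)‖ ^ 2 ≤ C * S.card) ∧
  (∀ δ : ℝ, 0 < δ → ∃ X ⊆ S, (X.card : ℝ) ≤ δ * S.card ∧
    ∀ n ∈ S \ X, ∀ u ∈ R, ‖L n u‖ ≤ Real.sqrt (C / δ))

/-- The joint distribution of the values `X N n k` for `n ∈ S N` tends to that of the `exp (Z k)`. -/
def ConvergesTo {ι κ : Type} [Fintype ι] [DecidableEq ι] [Fintype κ] (S : ℕ → Finset ℕ) (X : ℕ → ℕ → κ → ℂ)
    (Z : κ → Residues ι → ℂ) : Prop :=
  (∀ G : (κ → ℂ) → ℝ, Continuous G → (∃ C : ℝ, ∀ y, |G y| ≤ C) →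
    Tendsto (fun N : ℕ => (∑ n ∈ S N, G (X N n)) / (S N).card) atTop
      (𝓝 (∫ x, G (fun k => Complex.exp (Z k x)) ∂(uniform ι)))) ∧
  (∀ E : Set (κ → ℂ), MeasurableSet E → uniform ι {x | (fun k => Complex.exp (Z k x)) ∈ frontier E} = 0 →
    Tendsto (fun N : ℕ => (open Classical in ((S N).filter (fun n => X N n ∈ E)).card : ℝ) / (S N).card) atTop
      (𝓝 ((uniform ι).real {x | (fun k => Complex.exp (Z k x)) ∈ E})))

/-- **Thin sequences of Jacobians over a number field and all representations of odd weight: (1) the supremum near the line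
`Re s = 1 + w/2`, (2) the limit law up to this line.** -/
theorem result [Nonempty J] (F : (MvPolynomial J (𝓞 K))[X]) (hF : 1 ≤ F.natDegree)
    (hc : ∃ c : J → ℤ, (member F c).natDegree = F.natDegree ∧ ((member F c).map (algebraMap (𝓞 K) K)).Separable)
    (wt : J → ℕ) (a e : ℕ) (he : Odd e)
    (hs : ∀ (G : ℤ) (c : J → ℤ), (member F (fun j => G ^ wt j * c j)).comp (C ((G : 𝓞 K) ^ a) * X) =
      C ((G : 𝓞 K) ^ e) * member F c)
    (Φ : MvPolynomial (Option ℕ) ℝ) (w : ℕ) (hΦ : MvPolynomial.IsWeightedHomogeneous weight Φ w) (hw : Odd w)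
    (P : J → Finset ℝ) (α : J → ℝ → ℝ) (γ : J → ℝ) (h : ∀ j, Admissible (P j) (α j) (γ j)) (hγ : Function.Injective γ) :
    (∀ (c : J → ℤ) (s : ℂ), 1 + (w : ℝ) / 2 < s.re → LSeriesc Φ F c s = Complex.exp (logLc Φ F c s)) ∧
    (∃ C : ℝ, 0 < C ∧ ∃ N₀ : ℕ, ∀ N : ℕ, N₀ ≤ N → ∀ T : ℝ, 0 ≤ T →
      BoundedOn (fun n => logLc Φ F (floors P α n)) (Finset.Ioc N (2 * N)) (rectangle w N T) (C * (1 + T)) ∧
      BoundedOn (fun n => logLc Φ F (floors P α n)) ((Finset.Ioc N (2 * N)).filter Nat.Prime)
        (rectangle w N T) (C * (1 + T))) ∧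
    ∀ {κ : Type} [Fintype κ] (s : κ → ℂ), (∀ k, 1 + (w : ℝ) / 2 ≤ (s k).re) →
      ∃ Z : κ → Residues J → ℂ, (∀ k, Measurable (Z k)) ∧ (∀ k, Integrable (Z k) (uniform J)) ∧
        (∀ k, Tendsto (fun z : ℕ => ∫ x, ‖randomLog (fun c => localTrace Φ (member F c))
          (fun c => Good (member F c) F.natDegree) z (s k) x - Z k x‖ ∂(uniform J)) atTop (𝓝 0)) ∧
        ∀ σ : ℕ → κ → ℂ, (∀ k, Tendsto (fun N => σ N k) atTop (𝓝 (s k))) →
          (∀ k, Tendsto (fun N : ℕ => ((σ N k).re - (1 + (w : ℝ) / 2)) * Real.log N) atTop atTop) →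
          ConvergesTo (fun N => Finset.Ioc N (2 * N)) (fun N n k => LSeriesc Φ F (floors P α n) (σ N k)) Z ∧
          ConvergesTo (fun N => (Finset.Ioc N (2 * N)).filter Nat.Prime)
            (fun N n k => LSeriesc Φ F (floors P α n) (σ N k)) Z := by
  have hΦ' : MvPolynomial.IsWeightedHomogeneous Pool.Agent.N534.HC.Inst.wgt1 Φ w := by
    have : weight = Pool.Agent.N534.HC.Inst.wgt1 := by
      funext x
      cases x <;> rfl
    rw [← this]
    exact hΦ
  set Ψ := MvPolynomial.rename Pool.Agent.N534.HC.Inst.emb Φ with hΨ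
  have hwt := Pool.Agent.N534.HC.Inst.hasWt_emb hΦ'
  have hAdm : ∀ i : Unit, Pool.Agent.N534.HC.Adm ((fun _ : Unit => F) i) := fun _ => ⟨hF, hc⟩
  have hodd := Pool.Agent.N534.HC.Inst.oddMon_all (F := fun _ : Unit => F) (wt := wt) (a := fun _ => a) (e := fun _ => e)
    (fun _ => hs) (fun _ => he) hwt hw
  obtain ⟨D, hD⟩ := Pool.Agent.N534.HC.powH hwt hAdm hodd
  have hcmp := Pool.Agent.N534.HC.Inst.cmpH w Ψ (fun _ : Unit => F)
  have ht : (fun c : J → ℤ => localTrace Φ (member F c)) = Pool.Agent.N534.HC.Inst.tH Ψ (fun _ : Unit => F) := by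
    funext c v k
    unfold localTrace Pool.Agent.N534.HC.Inst.tH Pool.Agent.N534.HC.chv
    rw [hΨ, MvPolynomial.eval_rename]
    congr 2
    funext x
    match x with
    | none => rfl
    | some l =>
      have h1 := Pool.Agent.N534.HC.Inst.trace_eq (member F c) v (k * (l + 1))
      exact congrArg (Int.cast : ℤ → ℝ) h1
  have hg : (fun c : J → ℤ => Good (member F c) F.natDegree) = Pool.Agent.N534.HC.Inst.gH (fun _ : Unit => F) := by
    funext c v
    apply propext
    exact ⟨fun h _ => h, fun h => h ()⟩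
  have hL : logLc Φ F = fun (c : J → ℤ) (s : ℂ) => Pool.Agent.N534.HC.St.logL
      (Pool.Agent.N534.HC.Inst.tH Ψ (fun _ : Unit => F) c) (Pool.Agent.N534.HC.Inst.gH (fun _ : Unit => F) c) s := by
    funext c s
    unfold logLc
    have h1 := congrFun ht c
    have h2 := congrFun hg c
    rw [h1, h2]
    rfl
  have hQ : LSeriesc Φ F = fun (c : J → ℤ) (s : ℂ) => Pool.Agent.N534.HC.St.LSeries
      (Pool.Agent.N534.HC.Inst.tH Ψ (fun _ : Unit => F) c) (Pool.Agent.N534.HC.Inst.gH (fun _ : Unit => F) c) s := by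
    funext c s
    unfold LSeriesc
    have h1 := congrFun ht c
    have h2 := congrFun hg c
    rw [h1, h2]
    rfl
  have main := Pool.Agent.N666.TM.St.thin_all hcmp hD h hγ
  rw [hQ, hL, ht, hg]
  exact main

end

end Pool.Agent.Results.MP_753a9c_nt.ThinRepresentations
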