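import Pool.Agent.N842.ST.Conv
import Pool.Agent.N842.ST.Gen
import Pool.Agent.N842.ST.Coef
import Pool.Agent.N647.TS.GenT

/-!
# The joint moments of the coefficients of the normalised Euler factors of the Jacobians of almost all superelliptic curves
`Y ^ l = f(X)` whose coefficients are the integer parts of the values at the same integer, or prime, of generalised polynomials

Here `l` is a prime number and the degree `D` of the monic polynomial `f` is prime to `l`; the case `l = 2` are the hyperelliptic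
curves of every genus `g` (`D = 2 g + 1`).  The dimension of the Jacobian is `(l - 1) (D - 1) / 2`.  Only `N` of the about
`N ^ (c_0 + ... + c_(D-1))` curves of the corresponding box occur for `t ≤ N`.

Method: by exponential sums the vectors of the integer parts are uniformly distributed modulo all moduli up to a power of
`N`, over the integers and over the primes (`Pool.Agent.N666.TM.fl_well`); high moments of sums of local functions over such families
(`Pool.Agent.N647.TS`); the local means are those of `CoefficientJointMoments` (`Pool.Agent.N842.ST`).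
-/

set_option autoImplicit false

namespace Pool.Agent.Results.MP_753a9c_nt.ThinSequences

open Finset

open Classical in
/-- The number of the solutions of `Y ^ l = X ^ D + m (D - 1) X ^ (D - 1) + ... + m 1 X + m 0` in the field with `p ^ k` elements,
`p` a prime number. -/
noncomputable def points (l D k p : ℕ) (m : Fin D → ℕ) : ℕ :=
  if h : p.Prime then
    haveI : Fact p.Prime := ⟨h⟩
    Nat.card {P : GaloisField p k × GaloisField p k // P.2 ^ l = P.1 ^ D + ∑ i, (m i : GaloisField p k) * P.1 ^ (i : ℕ)}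
  else 0

/-- `p ≠ l` and the polynomial `X ^ D + m (D - 1) X ^ (D - 1) + ... + m 0` is separable modulo `p`, so that the curve
`C : Y ^ l = X ^ D + m (D - 1) X ^ (D - 1) + ... + m 0` has good reduction at `p`. -/
def Smooth (l D p : ℕ) (m : Fin D → ℕ) : Prop :=
  p ≠ l ∧ (Polynomial.X ^ D + ∑ i, Polynomial.C (m i : ZMod p) * Polynomial.X ^ (i : ℕ)).Separable

/-- The number `(#C(F_q) - (q + 1)) / q ^ (1 / 2)`, where `q = p ^ k` (there is one point at infinity), that is, `-1` times the sum of
the `k`-th powers of the inverse roots of the normalised Euler factor at `p`. -/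
noncomputable def powerSum (l D k p : ℕ) (m : Fin D → ℕ) : ℝ :=
  (((points l D k p m : ℝ) + 1) - ((p : ℝ) ^ k + 1)) / Real.sqrt p ^ k

/-- The coefficient of `T ^ i` of the power series `exp (t 0 T + t 1 T ^ 2 / 2 + ... + t (D - 1) T ^ D / D)` (the formulas of
Newton). -/
noncomputable def coeff {D : ℕ} (t : Fin D → ℝ) : ℕ → ℝ
  | 0 => 1
  | i + 1 => (∑ j : Fin (i + 1), (if h : (j : ℕ) < D then t ⟨j, h⟩ else 0) * coeff t (i - j)) / (i + 1)

open Classical in
/-- The coefficient of `T ^ i`, `i ≤ D`, of the normalised Euler factor at `p` of the Jacobian of the curve `C`; `0` if the curve is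
not smooth modulo `p`. -/
noncomputable def a (l D i p : ℕ) (m : Fin D → ℕ) : ℝ :=
  if Smooth l D p m then coeff (fun k : Fin D => powerSum l D (k + 1) p m) i else 0

/-- `k (l - 1)` if the field with `p ^ k` elements contains the roots of unity of order `l`, and `0` otherwise. -/
def variance (l k p : ℕ) : ℕ := k * (if l ∣ p ^ k - 1 then l - 1 else 0)

open Classical in
/-- `l - 1` if `k` is even and `p ^ (k / 2) ≡ - 1 (mod l)`, and `0` otherwise. -/
noncomputable def shift (l k p : ℕ) : ℕ := if Even k ∧ l ∣ p ^ (k / 2) + 1 then l - 1 else 0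

/-- The mean of the product of the powers with the exponents `q i` of the coefficients of `T ^ i` (`1 ≤ i ≤ D`; here the index is
`i - 1`) of the power series `exp (∑ X_k T ^ k / k)`, where the `X_k` are independent normal variables with the means `shift l k p`
and the variances `variance l k p`. -/
noncomputable def moment (l D p : ℕ) (q : Fin D → ℕ) : ℝ :=
  ∫ x : Fin D → ℝ, ∏ i : Fin D, coeff x (i + 1) ^ q i
    ∂(MeasureTheory.Measure.pi
      (fun k : Fin D => ProbabilityTheory.gaussianReal (shift l (k + 1) p : ℝ) (variance l (k + 1) p : NNReal)))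

/-- For all weights `w` in `W` and all exponents `q e i` (`e < s`, `1 ≤ i ≤ D`; here the index is `i - 1`) of weight
`∑ i (q e i) ≤ D` for every `e`: the weighted mean of the products `∏ a_i(p_(j + e)) ^ (q e i)` over the first `n` primes
`p_0 = 2, p_1, ..., p_(n-1)` differs from the weighted mean of the products `∏ moment l D p_(j + e) (q e)` at most
by `(max 1 (∑ w j ^ 2)) ^ (1 / 2) n ^ δ`. -/
def Moments (l D s : ℕ) (δ : ℝ) (W : Set (ℕ → ℝ)) (n : ℕ) (m : Fin D → ℕ) : Prop :=
  ∀ w ∈ W, ∀ q : Fin s → Fin D → ℕ, (∀ e, ∑ i : Fin D, (i + 1 : ℕ) * q e i ≤ D) →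
    |∑ j ∈ range n, w j * ∏ e : Fin s, ∏ i : Fin D, a l D (i + 1) (Nat.nth Nat.Prime (j + e)) m ^ q e i -
      ∑ j ∈ range n, w j * ∏ e : Fin s, moment l D (Nat.nth Nat.Prime (j + e)) (q e)| ≤
    Real.sqrt (max 1 (∑ j ∈ range n, w j ^ 2)) * (n : ℝ) ^ δ

/-- `c` is the largest exponent of the generalised polynomial `∑ b x t ^ x`, `x ∈ F`; it is positive and not an integer and has a
positive coefficient. -/
def Admissible (F : Finset ℝ) (b : ℝ → ℝ) (c : ℝ) : Prop :=
  c ∈ F ∧ (∀ x ∈ F, x ≤ c) ∧ 0 < c ∧ (∀ m : ℕ, c ≠ m) ∧ 0 < b c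

/-- The integer part `⌊P_j(t)⌋` of the value of the generalised polynomial number `j` (and `0` if the value is negative, which is
the case for finitely many `t` only). -/
noncomputable def value {D : ℕ} (F : Fin D → Finset ℝ) (b : Fin D → ℝ → ℝ) (t : ℕ) (j : Fin D) : ℕ :=
  ⌊∑ x ∈ F j, b j x * (t : ℝ) ^ x⌋₊

lemma smooth_eq (l D p : ℕ) (m : Fin D → ℕ) : Smooth l D p m = Pool.Agent.N842.ST.Good l D p m := rfl

lemma coeff_eq {D : ℕ} (t : Fin D → ℝ) (i : ℕ) : coeff t i = Pool.Agent.N842.ST.cl t i := by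
  induction i using Nat.strong_induction_on with
  | _ i ih =>
    cases i with
    | zero => rw [coeff, Pool.Agent.N842.ST.cl]
    | succ i =>
      rw [coeff, Pool.Agent.N842.ST.cl]
      congr 1
      refine sum_congr rfl fun j _ => ?_
      rw [ih (i - j) (by omega)]

lemma ps_eq (l D k : ℕ) (hk : k ≠ 0) (p : ℕ) (hp : p.Prime) (m : Fin D → ℕ) (hm : Smooth l D p m) :
    powerSum l D k p m = Pool.Agent.N842.ST.A l D k p m := by
  classical
  have : Fact p.Prime := ⟨hp⟩
  unfold powerSum Pool.Agent.N842.ST.A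
  have h3 : (Pool.Agent.N842.ST.fp p (fun i => ((m i : ℕ) : ZMod p))).Separable := hm.2
  rw [dif_pos ⟨hp, hm.1⟩, if_pos h3]
  unfold points
  rw [dif_pos hp, Pool.Agent.N842.ST.card_points l p k hk m]
  congr 1
  ring

open Classical in
lemma a_eq (l D i : ℕ) (p : ℕ) (hp : p.Prime) (m : Fin D → ℕ) : a l D i p m =
    if Pool.Agent.N842.ST.Good l D p m then Pool.Agent.N842.ST.cl (fun j : Fin D => Pool.Agent.N842.ST.A l D (j + 1) p m) i else 0 := by
  unfold a
  by_cases h : Smooth l D p m
  · rw [if_pos h, if_pos (show Pool.Agent.N842.ST.Good l D p m from h), coeff_eq]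
    congr 1
    funext k
    exact ps_eq l D (k + 1) (by omega) p hp m h
  · rw [if_neg h, if_neg (show ¬ Pool.Agent.N842.ST.Good l D p m from h)]

lemma moment_eq (l D p : ℕ) (q : Fin D → ℕ) : moment l D p q = Pool.Agent.N842.ST.EM l D p (Pool.Agent.N842.ST.CP D q) := by
  unfold moment Pool.Agent.N842.ST.EM
  simp only [Pool.Agent.N842.ST.CP_eval, coeff_eq]
  rfl

open Classical in
/-- Let a prime number `l`, a degree `D` prime to `l`, a number `s ≥ 1`, `δ > 0` and integers `A, B ≥ 0` be given, and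
generalised polynomials `P_j(t) = ∑ b j x t ^ x`, `j = 0, ..., D - 1`, with distinct leading exponents which are positive
and not integers and have positive coefficients (for example `t ^ (j + √2)`). There are `κ > 0` and `y₀` such that for all `y ≥ y₀`
and all `N` the following holds.

Let for every `n` an arbitrary set `W n` of at most `n ^ B` weights `w : ℕ → [-1, 1]` be given. Then for all the integers `t` in
`(N, 2 N]` with at most `N / y ^ A` exceptions, and for all the primes `t` in `(N, 2 N]` with the exception of at most a proportion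
`1 / y ^ A` of them, the Jacobian of the curve `Y ^ l = X ^ D + ⌊P_(D-1)(t)⌋ X ^ (D - 1) + ... + ⌊P_0(t)⌋` has the following
property: for all `n` with `y ≤ n ≤ N ^ κ` and all weights `w ∈ W n` all the joint moments of weight at most `D` of the coefficients
of the normalised Euler factors at `s` consecutive primes `p_j, ..., p_(j+s-1)` have, in the weighted mean over `j < n`, the values
`moment`, up to an error `(max 1 (∑ w j ^ 2)) ^ (1 / 2) n ^ δ`. -/
theorem result (l D s : ℕ) (hl : l.Prime) (hD : Nat.Coprime D l) (hs : 1 ≤ s) (F : Fin D → Finset ℝ) (b : Fin D → ℝ → ℝ)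
    (c : Fin D → ℝ) (h : ∀ j, Admissible (F j) (b j) (c j)) (hc : Function.Injective c) (δ : ℝ) (hδ : 0 < δ) (A B : ℕ) :
    ∃ κ : ℝ, 0 < κ ∧ ∃ y₀ : ℕ, ∀ y N : ℕ, y₀ ≤ y →
    ∀ W : ℕ → Set (ℕ → ℝ), (∀ n, (W n).Finite ∧ (W n).ncard ≤ n ^ B) → (∀ n, ∀ w ∈ W n, ∀ j, |w j| ≤ 1) →
      (((Ioc N (2 * N)).filter fun t => ¬ ∀ n : ℕ, y ≤ n → (n : ℝ) ≤ (N : ℝ) ^ κ →
        Moments l D s δ (W n) n (value F b t)).card : ℝ) ≤ 1 / (y : ℝ) ^ A * N ∧
      ((((Ioc N (2 * N)).filter Nat.Prime).filter fun t => ¬ ∀ n : ℕ, y ≤ n → (n : ℝ) ≤ (N : ℝ) ^ κ →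
        Moments l D s δ (W n) n (value F b t)).card : ℝ) ≤ 1 / (y : ℝ) ^ A * ((Ioc N (2 * N)).filter Nat.Prime).card := by
  have hD0 : D ≠ 0 := by
    rintro rfl
    rw [Nat.coprime_zero_left] at hD
    exact hl.one_lt.ne' hD
  have hd : 1 ≤ D := Nat.one_le_iff_ne_zero.2 hD0
  -- the admissible exponents
  obtain ⟨Q, hQ⟩ : ∃ Q : Finset (Fin D → ℕ), Q = (Fintype.piFinset (fun _ : Fin D => range (D + 1))).filter
    (fun q => ∑ k : Fin D, (k + 1 : ℕ) * q k ≤ D) := ⟨_, rfl⟩
  have hQm : ∀ q : Fin D → ℕ, q ∈ Q ↔ ∑ k : Fin D, (k + 1 : ℕ) * q k ≤ D := by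
    intro q
    rw [hQ, mem_filter]
    constructor
    · exact fun h => h.2
    · intro h
      refine ⟨?_, h⟩
      rw [Fintype.mem_piFinset]
      intro k
      rw [mem_range]
      have h2 : (k + 1 : ℕ) * q k ≤ ∑ k : Fin D, (k + 1 : ℕ) * q k :=
        single_le_sum (f := fun k : Fin D => (k + 1 : ℕ) * q k) (fun k _ => Nat.zero_le _) (mem_univ k)
      have h3 : q k ≤ (k + 1 : ℕ) * q k := Nat.le_mul_of_pos_left _ (by omega)
      omega
  obtain ⟨κ, hκ, y₀, hM⟩ := Pool.Agent.N647.TS.genT D s hd hs (P := F) (a := b) (c := c) h hc δ hδ A B Q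
    (fun q p m => Pool.Agent.N842.ST.CV l D p q m)
    (fun q p => Pool.Agent.N842.ST.EM l D p (Pool.Agent.N842.ST.CP D q))
    (fun q _ p _ m => Pool.Agent.N842.ST.CV_mod l D p q m)
    (fun q _ => by
      obtain ⟨C₁, hC₁⟩ := Pool.Agent.N842.ST.CV_bd l hl D hD q
      obtain ⟨C₂, hC₂⟩ := Pool.Agent.N842.ST.EM_bd l hl D (Pool.Agent.N842.ST.CP D q)
      exact ⟨max C₁ C₂, fun p _ => ⟨fun m => (hC₁ p m).trans (le_max_left _ _), (hC₂ p).trans (le_max_right _ _)⟩⟩)
    (fun q hq => Pool.Agent.N842.ST.local_mean7 l hl D hD q ((hQm q).1 hq))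
  refine ⟨κ, hκ, y₀, fun y N hy W hW hW1 => ?_⟩
  refine hM y N hy W hW hW1 (fun m => ∀ n : ℕ, y ≤ n → (n : ℝ) ≤ (N : ℝ) ^ κ → Moments l D s δ (W n) n m)
    fun m hm n hyn hnN w hw q hq => ?_
  have h1 := hm n hyn hnN w hw q (fun e => (hQm _).2 (hq e))
  have h2 : ∀ j : ℕ, ∏ e : Fin s, ∏ i : Fin D, a l D (i + 1) (Nat.nth Nat.Prime (j + e)) m ^ q e i =
      ∏ e : Fin s, Pool.Agent.N842.ST.CV l D (Pool.Agent.TH894.NF.pr (j + e)) (q e) m := by
    intro j
    refine prod_congr rfl fun e _ => ?_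
    unfold Pool.Agent.N842.ST.CV
    refine prod_congr rfl fun i _ => ?_
    rw [a_eq l D (i + 1) _ (Nat.prime_nth_prime _)]
    congr 1
  have h3 : ∀ j : ℕ, ∏ e : Fin s, moment l D (Nat.nth Nat.Prime (j + e)) (q e) =
      ∏ e : Fin s, Pool.Agent.N842.ST.EM l D (Pool.Agent.TH894.NF.pr (j + e)) (Pool.Agent.N842.ST.CP D (q e)) := by
    intro j
    refine prod_congr rfl fun e _ => ?_
    rw [moment_eq]
    rfl
  simp only [h2, h3]
  exact h1

end Pool.Agent.Results.MP_753a9c_nt.ThinSequences
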