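import Pool.Agent.N842.SQ.Wr

/-!
# The joint moments of the normalised traces of all powers of the Frobenius automorphisms for the products of the Weil restrictions
of the Jacobians of almost all superelliptic curves `Y ^ l = f(X)` over number fields

Let `K` be a number field and `ω_0, ..., ω_(g-1)` generators of its ring of integers as an abelian group, for instance an integral
basis.  We consider `N` curves `C_c : Y ^ l = f_c(X)` (`c < N`), where `l` is a prime number and the degree `D` of the monic polynomials
`f_c` is prime to `l`; the coefficients of the `f_c` are linear combinations of the `ω_j` with integral coefficients which arise from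
arbitrary integers by changing a few digits.  The case `l = 2` are the hyperelliptic curves of every genus (`D = 2 genus + 1`).

The abelian variety in question is the product over `c < N` of the Weil restrictions `Res_(K/ℚ) J(C_c)` of the Jacobians, an abelian
variety over `ℚ` of dimension `N [K : ℚ] (l - 1) (D - 1) / 2`, the Sato-Tate group of which is not connected if `K ≠ ℚ`.  All joint
moments of weight at most `D` in every curve are determined, for the prime numbers `p` of all splitting types in `K`, also at several
consecutive primes.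

By Newton's formulas the coefficients `a_i(A)(p)` of the normalised Euler factor of this abelian variety `A` are polynomials in the
traces `t_k` of the powers of the Frobenius class at `p` of the products: `a_1(A)(p)` is `-1` times the sum of the `t_1` of the curves.

For a prime number `p` and `k ≥ 1` the homomorphisms `φ : 𝓞 K → F_(p ^ k)` correspond, if `p` is unramified in `K`, to the embeddings of
`K` in `ℚ_p^(alg)` which are fixed by the `k`-th power of a Frobenius automorphism.
-/

set_option autoImplicit false

namespace Pool.Agent.Results.MP_753a9c_nt.WeilRestrictions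

open Finset NumberField

/-- The elements `∑ m_(i,j) ω_j` of `𝓞 K`. -/
def coeff {R : Type} [CommRing R] {g D : ℕ} (ω : Fin g → R) (m : Fin (D * g) → ℕ) (i : Fin D) : R :=
  ∑ j, (m (finProdFinEquiv (i, j)) : R) * ω j

/-- The number of the solutions of `Y ^ l = X ^ D + u (D - 1) X ^ (D - 1) + ... + u 0` in the field `F`. -/
noncomputable def points (F : Type) [Field F] (l : ℕ) {D : ℕ} (u : Fin D → F) : ℕ :=
  Nat.card {P : F × F // P.2 ^ l = P.1 ^ D + ∑ i, u i * P.1 ^ (i : ℕ)}

/-- The characteristic of `F` is not `l` and the polynomial `X ^ D + u (D - 1) X ^ (D - 1) + ... + u 0` over `F` is separable, so that the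
curve `C : Y ^ l = X ^ D + u (D - 1) X ^ (D - 1) + ... + u 0` is smooth. -/
def Smooth (F : Type) [Field F] (l : ℕ) {D : ℕ} (u : Fin D → F) : Prop :=
  (l : F) ≠ 0 ∧ (Polynomial.X ^ D + ∑ i, Polynomial.C (u i) * Polynomial.X ^ (i : ℕ)).Separable

open Classical in
/-- For a field `F` with `q` elements the number `(q + 1 - #C(F)) / q ^ (1 / 2)` (there is one point at infinity), that is, the trace of
the normalised Frobenius automorphism of the Jacobian of `C`; `0` if the curve is not smooth. -/
noncomputable def a (F : Type) [Field F] (l : ℕ) {D : ℕ} (u : Fin D → F) : ℝ :=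
  if Smooth F l u then ((Nat.card F : ℝ) + 1 - ((points F l u : ℝ) + 1)) / Real.sqrt (Nat.card F) else 0

/-- The sum, over the homomorphisms `φ : 𝓞 K → F_(p ^ k)`, of the numbers `a` of the curves obtained from `Y ^ l = f(X)` by applying `φ`
to the coefficients `u` of `f`.  If `p` is unramified in `K` and the curve has smooth reductions at the prime ideals above `p`, then this
is the trace of the `k`-th power of the normalised Frobenius class at `p` of the Weil restriction from `K` to `ℚ` of its Jacobian. -/
noncomputable def trace {R : Type} [CommRing R] (l k p : ℕ) [Fact p.Prime] {D : ℕ} (u : Fin D → R) : ℝ :=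
  ∑ᶠ φ : R →+* GaloisField p k, a (GaloisField p k) l (fun i => φ (u i))

/-- The number of the homomorphisms from `𝓞 K` to the field with `p ^ k` elements. -/
noncomputable def homs (K : Type) [Field K] (k p : ℕ) [Fact p.Prime] : ℕ := Nat.card (𝓞 K →+* GaloisField p k)

/-- `k (l - 1)` if the field with `p ^ k` elements contains the roots of unity of order `l`, and `0` otherwise. -/
def variance (l k p : ℕ) : ℕ := k * (if l ∣ p ^ k - 1 then l - 1 else 0)

open Classical in
/-- `l - 1` if `k` is even and `p ^ (k / 2) ≡ - 1 (mod l)`, and `0` otherwise. -/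
noncomputable def shift (l k p : ℕ) : ℕ := if Even k ∧ l ∣ p ^ (k / 2) + 1 then l - 1 else 0

/-- The `r`-th moment of a normal variable with the mean `- shift l k p * homs K (k / 2) p` and the variance
`variance l k p * homs K k p`. -/
noncomputable def moment (K : Type) [Field K] (l k p r : ℕ) [Fact p.Prime] : ℝ :=
  ∫ x, x ^ r ∂(ProbabilityTheory.gaussianReal (-((shift l k p * homs K (k / 2) p : ℕ) : ℝ)) ((variance l k p * homs K k p : ℕ) : NNReal))

/-- For all weights `w` in `W` and all exponents `q e c k` (`e < s`, `c < N`, `1 ≤ k ≤ D`; here the index is `k - 1`) of weight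
`∑ k (q e c k) ≤ D` for all `e` and `c`: the weighted sum, over all `j < x`, of the products of the powers `q e c k` of the traces of the
`k`-th powers of the normalised Frobenius classes of the Weil restrictions at the `s` consecutive prime numbers `p_j, ..., p_(j+s-1)`
(where `p_0 = 2, p_1, ...` are the prime numbers) differs from the same sum with the moments of independent normal variables at most by
`(max 1 (∑ w ^ 2)) ^ (1 / 2) x ^ δ`. -/
def Moments {K : Type} [Field K] [NumberField K] {g : ℕ} (ω : Fin g → 𝓞 K) (l D N s : ℕ) (δ : ℝ)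
    (W : Set (ℕ → ℝ)) (x : ℕ) (m : Fin (N * D * g) → ℕ) : Prop :=
  ∀ w ∈ W, ∀ q : Fin s → Fin N → Fin D → ℕ, (∀ e c, ∑ k : Fin D, (k + 1 : ℕ) * q e c k ≤ D) →
    |∑ j ∈ range x, w j *
        (∏ e : Fin s, ∏ c : Fin N, ∏ k : Fin D,
            trace l (k + 1) (Nat.nth Nat.Prime (j + e)) (fun i => coeff ω m (finProdFinEquiv (c, i))) ^ q e c k -
          ∏ e : Fin s, ∏ c : Fin N, ∏ k : Fin D, moment K l (k + 1) (Nat.nth Nat.Prime (j + e)) (q e c k))| ≤
      Real.sqrt (max 1 (∑ j ∈ range x, w j ^ 2)) * (x : ℝ) ^ δ

/-- The digit number `i` (counted from the right, beginning with `0`) of `n` in base `b`. -/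
def digit (b i n : ℕ) : ℕ := n / b ^ i % b

/-- The number which arises from the number `N` with at most `L` digits in base `b`, if for every `i ∈ S`
the digit number `i` is replaced by `f i`. -/
def change (b L N : ℕ) (f : ℕ → ℕ) (S : Finset ℕ) : ℕ :=
  ∑ i ∈ range L, (if i ∈ S then f i else digit b i N) * b ^ i

open Classical in
/-- The number of the choices of `r j` of `L j` positions for all `j` for which the tuple of the numbers obtained by
changing the digits of the `N j` at the chosen positions (according to `f j`) does not have the property `E`. -/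
noncomputable def exceptions {d : ℕ} (b : ℕ) (L r N : Fin d → ℕ) (f : Fin d → ℕ → ℕ) (E : (Fin d → ℕ) → Prop) : ℕ :=
  ((Fintype.piFinset (fun j => powersetCard (r j) (range (L j)))).filter
    (fun S => ¬ E (fun j => change b (L j) (N j) (f j) (S j)))).card

lemma exc_eq {d : ℕ} (b : ℕ) (L r N : Fin d → ℕ) (f : Fin d → ℕ → ℕ) (E : (Fin d → ℕ) → Prop) :
    exceptions b L r N f E = Pool.Agent.Y57.FD.exceptions b L r N f E := rfl

lemma a_eq (F : Type) [Field F] (l : ℕ) {D : ℕ} (u : Fin D → F) : a F l u = Pool.Agent.N842.SQ.val F l u := by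
  classical
  unfold a Pool.Agent.N842.SQ.val
  by_cases h : Smooth F l u
  · rw [if_pos h, if_pos (show Pool.Agent.N842.SQ.Smooth F l u from h)]
    congr 1
    show (Nat.card F : ℝ) + 1 - ((Pool.Agent.N842.SQ.points F l u : ℝ) + 1) = _
    ring
  · rw [if_neg h, if_neg (show ¬ Pool.Agent.N842.SQ.Smooth F l u from h)]

lemma trace_eq {K : Type} [Field K] (l k p : ℕ) [Fact p.Prime] {D : ℕ} (u : Fin D → 𝓞 K) :
    trace l k p u = Pool.Agent.N842.SQ.tr l k p u := by
  unfold trace Pool.Agent.N842.SQ.tr
  simp only [a_eq]

lemma moment_eq (K : Type) [Field K] (l : ℕ) (hl : l.Prime) (k p r : ℕ) [Fact p.Prime] : moment K l k p r =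
    Pool.Agent.N842.SQ.nm ((k : ℝ) * Pool.Agent.N842.ST.kap p l k * Pool.Agent.N842.SQ.hm K p k)
      (-(Pool.Agent.N842.ST.eta p l k * Pool.Agent.N842.SQ.hm K p (k / 2))) r := by
  unfold moment
  rw [← Pool.Agent.N842.SQ.nm_gauss]
  have hl1 : ((l - 1 : ℕ) : ℝ) = (l : ℝ) - 1 := by
    rw [Nat.cast_sub hl.one_lt.le, Nat.cast_one]
  have h1 : (((variance l k p * homs K k p : ℕ) : NNReal) : ℝ) = (k : ℝ) * Pool.Agent.N842.ST.kap p l k * Pool.Agent.N842.SQ.hm K p k := by
    unfold variance homs Pool.Agent.N842.ST.kap Pool.Agent.N842.SQ.hm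
    rw [NNReal.coe_natCast, Nat.cast_mul, Nat.cast_mul]
    split_ifs
    · rw [hl1]
    · rw [Nat.cast_zero]
  have h2 : ((shift l k p * homs K (k / 2) p : ℕ) : ℝ) = Pool.Agent.N842.ST.eta p l k * Pool.Agent.N842.SQ.hm K p (k / 2) := by
    unfold shift homs Pool.Agent.N842.ST.eta Pool.Agent.N842.SQ.hm
    rw [Nat.cast_mul]
    split_ifs
    · rw [hl1]
    · rw [Nat.cast_zero]
  rw [h1, h2]

/-- Let `K` be a number field, `ω_0, ..., ω_(g-1)` generators of the group `𝓞 K`, and let a prime number
`l`, a degree `D` prime to `l`, numbers `N, s ≥ 1`, a base `b ≥ 2`, `δ > 0` and integers `A, B ≥ 0` be given.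
There are `c > 0` and `y₀` such that for all integers `r j`, `L j` (`j < N D g`), `y` with `2 r j ≤ L j` and `y ≥ y₀` the
following holds.

Let `0 ≤ N' j < b ^ L j` be arbitrary integers, prescribe for every position `i` a digit `f j i` different from the digit of
`N' j` in base `b`, and let for every `x` an arbitrary set `W x` of at most `x ^ B` weights with values in `[-1, 1]`, defined on the
numbers `j` of the prime numbers `p_j`, be given.  If one chooses `r j` of the `L j`
positions and replaces the digits of `N' j` at these positions, then for all but at most a proportion `1 / y ^ A` of the choices the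
`N` curves `Y ^ l = f_c(X)` over `K` given by the numbers `m j` obtained have the following property: for all integers `x` with
`y ≤ x ≤ exp (c r j)` for all `j` and all weights `w ∈ W x`, all the joint moments of weight at most `D` in every curve of the traces
of the powers of the normalised Frobenius classes of the Weil restrictions from `K` to `ℚ` of the Jacobians at `s` consecutive prime
numbers have, in the weighted mean over the first `x` prime numbers, the values which correspond to independent normal variables with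
the variances `variance l k p * homs K k p` and the means `- shift l k p * homs K (k / 2) p`, up to an error
`(max 1 (∑ w ^ 2)) ^ (1 / 2) x ^ δ`. -/
theorem result (K : Type) [Field K] [NumberField K] (g l D N s b : ℕ) (ω : Fin g → 𝓞 K)
    (hω : Submodule.span ℤ (Set.range ω) = ⊤) (hl : l.Prime) (hD : Nat.Coprime D l) (hN : 1 ≤ N) (hs : 1 ≤ s) (hb : 2 ≤ b)
    (δ : ℝ) (hδ : 0 < δ) (A B : ℕ) :
    ∃ c : ℝ, 0 < c ∧ ∃ y₀ : ℕ, ∀ (L r : Fin (N * D * g) → ℕ) (y : ℕ), (∀ j, 2 * r j ≤ L j) → y₀ ≤ y →
    ∀ N' : Fin (N * D * g) → ℕ, (∀ j, N' j < b ^ L j) →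
    ∀ f : Fin (N * D * g) → ℕ → ℕ, (∀ j i, f j i < b ∧ f j i ≠ digit b i (N' j)) →
    ∀ W : ℕ → Set (ℕ → ℝ), (∀ x, (W x).Finite ∧ (W x).ncard ≤ x ^ B) → (∀ x, ∀ w ∈ W x, ∀ j, |w j| ≤ 1) →
      (exceptions b L r N' f
        (fun m => ∀ x : ℕ, y ≤ x → (∀ j, (x : ℝ) ≤ Real.exp (c * r j)) → Moments ω l D N s δ (W x) x m) : ℝ) ≤
        1 / (y : ℝ) ^ A * ∏ j, ((L j).choose (r j) : ℝ) := by
  classical
  have hg : 0 < g := by
    rcases Nat.eq_zero_or_pos g with h0 | h0
    · subst h0
      have h1 : (1 : 𝓞 K) ∈ Submodule.span ℤ (Set.range ω) := by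
        rw [hω]
        exact Submodule.mem_top
      rw [Set.range_eq_empty, Submodule.span_empty, Submodule.mem_bot] at h1
      exact absurd h1 one_ne_zero
    · exact h0
  have hD0 : D ≠ 0 := by
    rintro rfl
    rw [Nat.coprime_zero_left] at hD
    exact hl.one_lt.ne' hD
  have hd : 1 ≤ N * D * g := Nat.one_le_iff_ne_zero.2 (Nat.mul_ne_zero (Nat.mul_ne_zero (by omega) hD0) (by omega))
  obtain ⟨c, hc, y₀, h⟩ := Pool.Agent.N842.SQ.genW K b g l D N s ω hω hl hD hb hd hs δ hδ A B
  refine ⟨c, hc, y₀, fun L r y hrL hy N' hN' f hf W hW hW1 => ?_⟩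
  rw [exc_eq]
  refine h L r y hrL hy N' hN' f hf W hW hW1 _ fun m hm x hyx hxr w hw q hq => ?_
  have h1 := hm x hyx hxr w hw q hq
  rw [← sum_sub_distrib] at h1
  simp only [← mul_sub] at h1
  refine le_trans (le_of_eq ?_) h1
  congr 1
  refine sum_congr rfl fun j _ => ?_
  have e1 : ∀ e : Fin s, ∏ c : Fin N, ∏ k : Fin D,
      trace l (k + 1) (Nat.nth Nat.Prime (j + e)) (fun i => coeff ω m (finProdFinEquiv (c, i))) ^ q e c k =
        Pool.Agent.N842.SQ.FF ω l D N (q e) (Pool.Agent.TH894.NF.pr (j + e)) m := by
    intro e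
    have e2 : Pool.Agent.TH894.NF.pr (j + e) = Nat.nth Nat.Prime (j + e) := rfl
    rw [e2, Pool.Agent.N842.SQ.FF_eq]
    unfold Pool.Agent.N842.SQ.HF
    refine prod_congr rfl fun c _ => prod_congr rfl fun k _ => ?_
    rw [trace_eq]
    rfl
  have e3 : ∀ e : Fin s, ∏ c : Fin N, ∏ k : Fin D, moment K l (k + 1) (Nat.nth Nat.Prime (j + e)) (q e c k) =
      Pool.Agent.N842.SQ.MM K l D N (q e) (Pool.Agent.TH894.NF.pr (j + e)) := by
    intro e
    have e2 : Pool.Agent.TH894.NF.pr (j + e) = Nat.nth Nat.Prime (j + e) := rfl
    rw [e2, Pool.Agent.N842.SQ.MM_eq]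
    unfold Pool.Agent.N842.SQ.HM Pool.Agent.N842.SQ.h1
    refine prod_congr rfl fun c _ => prod_congr rfl fun k _ => ?_
    rw [moment_eq K l hl]
  rw [prod_congr rfl (fun e _ => e1 e), prod_congr rfl (fun e _ => e3 e)]

end Pool.Agent.Results.MP_753a9c_nt.WeilRestrictions
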